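import Mathlib
import Pool.Agent.V11306.Shift

/-!
# MP_0e3347, Q1: the determinant built from `j - k + 1`, `j`, `k`, `jk`
-/

set_option autoImplicit false

namespace Pool.Agent.Results.MP_0e3347_nt.EveryPrime

open NumberField

/-- The value of `det [x + ((j-k+1)/p) + (j/p) y + (k/p) z + (jk/p) w]`, `1 ≤ j, k ≤ (p-1)/2`, for
every prime `p > 3`.  (The indices of the matrix are `j - 1`, `k - 1`.) -/
theorem result (p : ℕ) [Fact p.Prime] (hp : 3 < p) (x y z w : ℂ) :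
    (p % 4 = 3 →
      ∀ (K : Type) [Field K] [NumberField K], Module.finrank ℚ K = 2 →
      ∀ α : K, α ^ 2 = -(p : K) →
      (Matrix.of fun j k : Fin ((p - 1) / 2) =>
        x + (legendreSym p (((j : ℤ) + 1) - ((k : ℤ) + 1) + 1) : ℂ) +
        (legendreSym p ((j : ℤ) + 1) : ℂ) * y + (legendreSym p ((k : ℤ) + 1) : ℂ) * z +
        (legendreSym p (((j : ℤ) + 1) * ((k : ℤ) + 1)) : ℂ) * w).det =
        (w + 1) * x - y * z +
          (legendreSym p 2 : ℂ) * ((y + 1) * (z - 1) - w * (x + 1)) +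
          (-1) ^ ((classNumber K - 1) / 2) * (((p : ℂ) + 1) / 2) * (w * x - (y + 1) * z)) ∧
    (p % 4 = 1 →
      ∀ (K : Type) [Field K] [NumberField K], Module.finrank ℚ K = 2 → ∀ α : K, α ^ 2 = (p : K) →
      ∀ σ : K →+* ℝ, 0 < σ α → ∀ ε : (𝓞 K)ˣ, 1 < σ ((ε : 𝓞 K) : K) →
      (∀ u : (𝓞 K)ˣ, ∃ n : ℤ, u = ε ^ n ∨ u = -ε ^ n) → ∀ a b : ℚ,
      ((ε : 𝓞 K) : K) ^ ((2 - legendreSym p 2) * (classNumber K : ℤ)) =
        algebraMap ℚ K a + algebraMap ℚ K b * α →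
      (Matrix.of fun j k : Fin ((p - 1) / 2) =>
        x + (legendreSym p (((j : ℤ) + 1) - ((k : ℤ) + 1) + 1) : ℂ) +
        (legendreSym p ((j : ℤ) + 1) : ℂ) * y + (legendreSym p ((k : ℤ) + 1) : ℂ) * z +
        (legendreSym p (((j : ℤ) + 1) * ((k : ℤ) + 1)) : ℂ) * w).det =
        (legendreSym p 2 : ℂ) * (((p : ℂ) - 1) / 2) * ((y + 1) * z - w * x) +
          ((p : ℂ) * b - a) * ((w + 1) * x - y * z) +
          (legendreSym p 2 : ℂ) * ((b : ℂ) - a) * (w * (1 - x) + (y + 1) * (z + 1))) := by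
  have hodd := (Fact.out : p.Prime).eq_two_or_odd
  have hm : p = 2 * ((p - 1) / 2) + 1 := by omega
  constructor
  · intro h3 K _ _ h2 α hα
    exact V11306.Toep.MS_three h3 hp _ hm K h2 α hα x y z w
  · intro h1 K _ _ h2 α hα σ hσ ε hε hfund a b hab
    exact V11306.Toep.MS_one h1 K h2 α hα σ hσ ε hε hfund a b hab _ hm x y z w

end Pool.Agent.Results.MP_0e3347_nt.EveryPrime
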